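import Mathlib
import Pool.Agent.W842.KF.Stm

/-!
# Random flips of short Kempe chains

Part FLIP of project KF: the local lemma.
-/

set_option autoImplicit false
set_option linter.all false

namespace Pool.Agent.W613.KF

open Finset Pool.Agent.Helper635.LLL
open Pool.Agent.W842.KF

/-- the representative of the component of `v` -/
noncomputable def rep {V : Type} (H : SimpleGraph V) (v : V) : V :=
  Quot.out (H.connectedComponentMk v)

theorem rep_eq {V : Type} (H : SimpleGraph V) {v w : V} (h : rep H v = rep H w) :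
    H.Reachable v w := by
  have h1 : H.connectedComponentMk v = H.connectedComponentMk w := by
    have e1 : Quot.mk _ (rep H v) = H.connectedComponentMk v := Quot.out_eq _
    have e2 : Quot.mk _ (rep H w) = H.connectedComponentMk w := Quot.out_eq _
    rw [← e1, ← e2, h]
  exact SimpleGraph.ConnectedComponent.exact h1

theorem rep_adj {V : Type} (H : SimpleGraph V) {v w : V} (h : H.Adj v w) :
    rep H v = rep H w := by
  have h1 : H.connectedComponentMk v = H.connectedComponentMk w :=
    SimpleGraph.ConnectedComponent.sound h.reachable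
  unfold rep
  rw [h1]

/-- the colour class as an element of `Fin K` -/
def fk (σ : ℕ → ℕ) (K : ℕ) (hK : 0 < K) (x : ℕ) : Fin K := ⟨key σ x % K, Nat.mod_lt _ hK⟩

theorem fk_val (σ : ℕ → ℕ) (K : ℕ) (hK : 0 < K) (x : ℕ) (h : key σ x < K) :
    (fk σ K hK x).val = key σ x := Nat.mod_eq_of_lt h

theorem t_flip : S_CLS → S_HOEF → S_FLIP := by
  classical
  intro hcls hhoef V _ Γ c σ K L q φ Λ a hcol hσ hkey hcmp haq hφ hφ0 hΛ0 hK hL h4
  have hK0 : 0 < K := hK
  let e : V → Fin K → Fin K × V := fun v P => (P, rep (cls Γ c σ P.val) v)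
  let f : V → Fin K → Bool → ℕ := fun v P β =>
    ∑ u ∈ (nb Γ v).filter (fun u => fk σ K hK0 (c v u) = P), a v u β
  have hsum : ∀ (v : V) (ω : Fin K × V → Bool),
      ∑ P : Fin K, (f v P (ω (e v P)) : ℝ) =
        ∑ u ∈ nb Γ v, (a v u (ω (e v (fk σ K hK0 (c v u)))) : ℝ) := by
    intro v ω
    rw [← Finset.sum_fiberwise_of_maps_to (s := nb Γ v) (t := (univ : Finset (Fin K)))
      (g := fun u => fk σ K hK0 (c v u)) (fun u _ => mem_univ _)]
    refine sum_congr rfl fun P _ => ?_
    show ((∑ u ∈ (nb Γ v).filter (fun u => fk σ K hK0 (c v u) = P), a v u (ω (e v P)) : ℕ) : ℝ) = _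
    push_cast
    refine sum_congr rfl fun u hu => ?_
    rw [(mem_filter.1 hu).2]
  have hsum2 : ∀ (v : V) (β : Bool), ∑ P : Fin K, (f v P β : ℝ) = ∑ u ∈ nb Γ v, (a v u β : ℝ) := by
    intro v β
    rw [← Finset.sum_fiberwise_of_maps_to (s := nb Γ v) (t := (univ : Finset (Fin K)))
      (g := fun u => fk σ K hK0 (c v u)) (fun u _ => mem_univ _)]
    refine sum_congr rfl fun P _ => ?_
    show ((∑ u ∈ (nb Γ v).filter (fun u => fk σ K hK0 (c v u) = P), a v u β : ℕ) : ℝ) = _
    push_cast
    rfl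
  have he : ∀ v, Function.Injective (e v) := fun v P P' h => (Prod.mk.inj h).1
  have hfq : ∀ v P, f v P false + f v P true ≤ 2 * q := by
    intro v P
    show ∑ u ∈ (nb Γ v).filter (fun u => fk σ K hK0 (c v u) = P), a v u false +
      ∑ u ∈ (nb Γ v).filter (fun u => fk σ K hK0 (c v u) = P), a v u true ≤ 2 * q
    rw [← sum_add_distrib]
    have hsub : (nb Γ v).filter (fun u => fk σ K hK0 (c v u) = P) ⊆ nb (cls Γ c σ P.val) v := by
      intro u hu
      rw [mem_filter, mem_nb] at hu
      rw [mem_nb]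
      have hk : key σ (c v u) = P.val := by
        rw [← hu.2, fk_val σ K hK0 _ (hkey v u hu.1)]
      refine ⟨hu.1, hk, ?_⟩
      rw [hcol.1 u v]
      exact hk
    have hc : ((nb Γ v).filter (fun u => fk σ K hK0 (c v u) = P)).card ≤ 2 :=
      (card_le_card hsub).trans (hcls V Γ c σ hcol hσ P.val v)
    refine (sum_le_card_nsmul _ _ q (fun u _ => haq v u)).trans ?_
    rw [smul_eq_mul]
    exact Nat.mul_le_mul_right q hc
  have hfφ : ∀ v, ∑ P : Fin K, ((f v P false : ℝ) + f v P true) ≤ φ := by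
    intro v
    rw [sum_add_distrib, hsum2, hsum2, ← sum_add_distrib]
    exact hφ v
  have hprob : ∀ v, (cnt (fun ω : Fin K × V → Bool =>
      φ / 2 + √(((2 * q : ℕ) : ℝ) * φ * Λ / 2) < ∑ P, (f v P (ω (e v P)) : ℝ)) : ℝ) ≤
      Real.exp (-Λ) * Fintype.card (Fin K × V → Bool) := by
    intro v
    have h1 := hhoef (Fin K × V) K (e v) (he v) (f v) (2 * q) φ Λ hφ0 hΛ0 (hfq v) (hfφ v)
    convert h1
  have hsq : √(((2 * q : ℕ) : ℝ) * φ * Λ / 2) = √((q : ℝ) * φ * Λ) := by
    congr 1
    push_cast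
    ring
  have hcp : ∀ inst : Fintype (Fin K × V → Bool), 0 < @Fintype.card _ inst := fun inst =>
    @Fintype.card_pos _ inst ⟨fun _ => false⟩
  obtain ⟨ω, hω⟩ := lll (T := Fin K × V) (C := Bool) (univ : Finset V)
    (fun v ω => φ / 2 + √(((2 * q : ℕ) : ℝ) * φ * Λ / 2) < ∑ P, (f v P (ω (e v P)) : ℝ))
    (fun v => univ.image (e v))
    (by
      intro v _ ω ω' hωω h
      have h1 : ∀ P, ω (e v P) = ω' (e v P) := fun P => hωω _ (mem_image_of_mem _ (mem_univ P))
      simp only [← h1]
      exact h)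
    (Real.exp (-Λ)) (K * L) (Real.exp_pos _).le
    (by
      intro v _
      convert hprob v)
    (by
      intro v _
      have hsub : (univ.filter (fun w => ¬ Disjoint (univ.image (e v)) (univ.image (e w)))) ⊆
          (univ : Finset (Fin K)).biUnion (fun P => cmp (cls Γ c σ P.val) v) := by
        intro w hw
        rw [mem_filter] at hw
        obtain ⟨x, hx1, hx2⟩ := Finset.not_disjoint_iff.1 hw.2
        obtain ⟨P, -, hP⟩ := mem_image.1 hx1
        obtain ⟨P', -, hP'⟩ := mem_image.1 hx2
        rw [← hP'] at hP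
        obtain ⟨h1, h2⟩ := Prod.mk.inj hP
        subst h1
        rw [mem_biUnion]
        exact ⟨P, mem_univ _, mem_cmp.2 (rep_eq _ h2)⟩
      have h1 := (card_le_card hsub).trans card_biUnion_le
      refine le_trans ?_ (h1.trans ((sum_le_card_nsmul _ _ L (fun P _ => hcmp P.val v)).trans ?_))
      · refine le_of_eq ?_
        congr
      · rw [card_univ, Fintype.card_fin, smul_eq_mul])
    (by exact_mod_cast h4)
    (Nat.mul_pos hK hL)
    (hcp _)
  refine ⟨fun u v => if Γ.Adj u v then ω (e u (fk σ K hK0 (c u v))) else false, ?_, ?_, ?_⟩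
  · intro u v
    by_cases huv : Γ.Adj u v
    · have hvu := huv.symm
      simp only [if_pos huv, if_pos hvu]
      have h1 : c v u = c u v := hcol.1 v u
      rw [h1]
      have h2 : (cls Γ c σ (fk σ K hK0 (c u v)).val).Adj u v := by
        rw [fk_val σ K hK0 _ (hkey u v huv)]
        exact ⟨huv, rfl, by rw [h1]⟩
      show ω (_, rep _ u) = ω (_, rep _ v)
      rw [rep_adj _ h2]
    · have hvu : ¬ Γ.Adj v u := fun h => huv h.symm
      simp only [if_neg huv, if_neg hvu]
  · intro u v w huv huw hk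
    simp only [if_pos huv, if_pos huw]
    have h1 : fk σ K hK0 (c u v) = fk σ K hK0 (c u w) := by
      unfold fk
      rw [Fin.mk.injEq, hk]
    rw [h1]
  · intro v
    have h1 := not_lt.1 (hω v (mem_univ _))
    rw [hsq, hsum] at h1
    refine le_trans (le_of_eq ?_) h1
    refine sum_congr rfl fun u hu => ?_
    rw [mem_nb] at hu
    simp only [if_pos hu]

end Pool.Agent.W613.KF
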